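import Pool.Agent.N916.GB.Stm
import Pool.Agent.Y495.CX.FEW

/-!
# GB-FE1: few sets have no large prime in an odd class modulo `8` (after helper713)
-/

set_option autoImplicit false

open scoped Classical

namespace Pool.Agent.N502.GB.FE1

open Finset Filter
open Pool.Agent.Y703.CX (sm la eL zz S_SIE)
open Pool.Agent.N916.GB
open Pool.Agent.Y495.CX.Few (PN euler prod_pos' le_of_mem_prod mert eL_tendsto log_small zz_ge
  loglog_zz rpow_eq)

/-- the family -/
noncomputable def LL (a X : ℕ) : Finset (Finset ℕ) :=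
  (SA X).filter fun S => ∀ p ∈ la (zz X) S, p % 8 ≠ a % 8

lemma mem_LL {a X : ℕ} {S : Finset ℕ} : S ∈ LL a X ↔ S ⊆ range (X + 1) ∧ (∀ p ∈ S, Po p) ∧
    ∏ p ∈ S, p ≤ X ∧ ∀ p ∈ la (zz X) S, p % 8 ≠ a % 8 := by
  unfold LL SA
  rw [mem_filter, mem_filter, mem_powerset]
  tauto

lemma LL_sub {a X : ℕ} {S T : Finset ℕ} (hS : S ∈ LL a X) (h : T ⊆ S) : T ∈ LL a X := by
  rw [mem_LL] at hS ⊢
  obtain ⟨a0, a1, a2, a3⟩ := hS
  refine ⟨h.trans a0, fun p hp => a1 p (h hp), ?_, ?_⟩
  · refine le_trans ?_ a2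
    exact prod_le_prod_of_subset_of_one_le' h fun p hp _ => (a1 p hp).1.one_lt.le
  · intro p hp
    refine a3 p ?_
    unfold la at hp ⊢
    rw [mem_filter] at hp ⊢
    exact ⟨h hp.1, hp.2⟩

/-- the logarithmic density of the family -/
lemma LL_sum (a X : ℕ) : ∑ S ∈ LL a X, (1 : ℝ) / ((∏ p ∈ S, p : ℕ) : ℝ) ≤
    Real.exp (∑ p ∈ PN (zz X), (1 : ℝ) / p +
      ∑ p ∈ (PN X).filter (fun p => p % 8 ≠ a % 8), (1 : ℝ) / p) := by
  have h1 : ∀ S ∈ LL a X, (1 : ℝ) / ((∏ p ∈ S, p : ℕ) : ℝ) = ∏ p ∈ S, (1 : ℝ) / p := by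
    intro S _
    rw [prod_div_distrib, prod_const_one]
    push_cast
    rfl
  rw [sum_congr rfl h1]
  have h2 : ∑ S ∈ LL a X, ∏ p ∈ S, (1 : ℝ) / p ≤
      ∑ S ∈ (PN (zz X) ∪ (PN X).filter (fun p => p % 8 ≠ a % 8)).powerset,
        ∏ p ∈ S, (1 : ℝ) / p := by
    refine sum_le_sum_of_subset_of_nonneg ?_ fun S _ _ => prod_nonneg fun p _ => by positivity
    intro S hS
    rw [mem_LL] at hS
    obtain ⟨a0, a1, a2, a3⟩ := hS
    rw [mem_powerset]
    intro p hp
    have h6 := a1 p hp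
    have h7 : p ≤ X := le_of_mem_prod (fun p hp => (a1 p hp).1) a2 hp
    rw [mem_union]
    by_cases hpz : p ≤ zz X
    · left
      rw [mem_filter, mem_Icc]
      exact ⟨⟨h6.1.one_lt.le, hpz⟩, h6.1⟩
    · right
      rw [mem_filter, mem_filter, mem_Icc]
      refine ⟨⟨⟨h6.1.one_lt.le, h7⟩, h6.1⟩, a3 p ?_⟩
      unfold la
      rw [mem_filter]
      exact ⟨hp, hpz⟩
  refine h2.trans ((euler _ _ fun p _ => by positivity).trans ?_)
  apply Real.exp_le_exp.2
  rw [← sum_union_inter]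
  have h3 : (0 : ℝ) ≤ ∑ p ∈ PN (zz X) ∩ (PN X).filter (fun p => p % 8 ≠ a % 8), (1 : ℝ) / p :=
    sum_nonneg fun p _ => by positivity
  linarith

theorem t_FE1 : S_FE1 := by
  intro hs hm a ha ε hε
  obtain ⟨C, hC0, hC⟩ := mert
  obtain ⟨C₁, hC₁⟩ := hm a ha
  obtain ⟨C', hC'1, hC'⟩ := hs
  set M : ℝ := C' * Real.exp (C + (C + C₁)) with hM
  have hM0 : 0 < M := by positivity
  have hev : ∀ᶠ X : ℕ in atTop,
      (((SA X).filter fun S => ∀ p ∈ la (zz X) S, p % 8 ≠ a % 8).card : ℝ) ≤ ε * X := by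
    filter_upwards [eL_tendsto.eventually (log_small 3 (1 / 8) (by norm_num)),
      eL_tendsto.eventually (eventually_ge_atTop 2), eventually_ge_atTop 3,
      eL_tendsto.eventually (eventually_ge_atTop (8 * Real.log (M / ε)))] with X h1 h2 h3 h0
    set l := eL X with hl
    have h4 := hC (zz X) (zz_ge h2)
    have h5 := loglog_zz h2
    rw [← hl] at h5
    have h6 : ∑ p ∈ (PN X).filter (fun p => p % 8 ≠ a % 8), (1 : ℝ) / p ≤
        3 / 4 * l + (C + C₁) := by
      have g1 := hC X h3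
      have g2 := (abs_le.1 (hC₁ X h3)).1
      have g3 : (range (X + 1)).filter (fun p => p.Prime ∧ p % 8 = a % 8) =
          (PN X).filter (fun p => p % 8 = a % 8) := by
        ext p
        simp only [mem_filter, mem_range, mem_Icc]
        constructor
        · rintro ⟨b1, b2, b3⟩
          exact ⟨⟨⟨b2.one_lt.le, by omega⟩, b2⟩, b3⟩
        · rintro ⟨⟨⟨b1, b2⟩, b3⟩, b4⟩
          exact ⟨by omega, b3, b4⟩
      rw [g3] at g2
      have g4 := sum_filter_add_sum_filter_not (PN X) (fun p => p % 8 = a % 8)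
        (fun p : ℕ => (1 : ℝ) / p)
      change _ ≤ l + C at g1
      have g5 : Real.log (Real.log X) = l := rfl
      rw [g5] at g2
      have g6 : ∑ p ∈ (PN X).filter (fun p => p % 8 ≠ a % 8), (1 : ℝ) / p =
          ∑ p ∈ (PN X).filter (fun p => ¬ p % 8 = a % 8), (1 : ℝ) / p := rfl
      rw [g6]
      linarith
    have h7 := hC' X (LL a X) (by omega)
      (fun S hS => ⟨fun p hp => ((mem_LL.1 hS).2.1 p hp).1, (mem_LL.1 hS).2.2.1⟩)
      (fun S hS T hT => LL_sub hS hT)
    have h8 := LL_sum a X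
    have hlX : Real.log X = Real.exp l := by
      have := rpow_eq (X := X) h2 1
      rwa [Real.rpow_one, one_mul] at this
    rw [hlX] at h7
    have h12 : Real.exp (∑ p ∈ PN (zz X), (1 : ℝ) / p +
        ∑ p ∈ (PN X).filter (fun p => p % 8 ≠ a % 8), (1 : ℝ) / p) ≤
        Real.exp (C + (C + C₁)) * Real.exp ((7 / 8) * l) := by
      rw [← Real.exp_add]
      apply Real.exp_le_exp.2
      linarith
    have h13 : ((LL a X).card : ℝ) * Real.exp l ≤
        C' * X * (Real.exp (C + (C + C₁)) * Real.exp ((7 / 8) * l)) := by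
      refine h7.trans ?_
      exact mul_le_mul_of_nonneg_left (h8.trans h12) (by positivity)
    have h14 : (M * X * Real.exp (-(1 / 8) * l)) * Real.exp l =
        C' * X * (Real.exp (C + (C + C₁)) * Real.exp ((7 / 8) * l)) := by
      have : Real.exp ((7 / 8) * l) = Real.exp (-(1 / 8) * l) * Real.exp l := by
        rw [← Real.exp_add]
        congr 1
        ring
      rw [this, hM]
      ring
    rw [← h14] at h13
    have h15 : ((LL a X).card : ℝ) ≤ M * X * Real.exp (-(1 / 8) * l) :=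
      le_of_mul_le_mul_right h13 (Real.exp_pos _)
    have h16 : M * Real.exp (-(1 / 8) * l) ≤ ε := by
      have h17 : Real.exp (-(1 / 8) * l) ≤ Real.exp (-Real.log (M / ε)) := by
        apply Real.exp_le_exp.2
        linarith
      rw [Real.exp_neg, Real.exp_log (by positivity)] at h17
      calc M * Real.exp (-(1 / 8) * l) ≤ M * (M / ε)⁻¹ := mul_le_mul_of_nonneg_left h17 hM0.le
        _ = ε := by field_simp
    have h18 : (0 : ℝ) ≤ X := Nat.cast_nonneg _
    calc (((SA X).filter fun S => ∀ p ∈ la (zz X) S, p % 8 ≠ a % 8).card : ℝ) =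
          ((LL a X).card : ℝ) := rfl
      _ ≤ M * X * Real.exp (-(1 / 8) * l) := h15
      _ = (M * Real.exp (-(1 / 8) * l)) * X := by ring
      _ ≤ ε * X := mul_le_mul_of_nonneg_right h16 h18
  rw [eventually_atTop] at hev
  exact hev

end Pool.Agent.N502.GB.FE1
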